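import Pool.Agent.N325.DD.Stm

/-!
# PROJECT DD, task A: the density of the rough numbers
-/

set_option autoImplicit false

namespace Pool.Agent.N297.DD

open Finset Pool.Agent.N325.DD

/-- the product of the primes below `K` -/
def PP (K : ℕ) : ℕ := ∏ p ∈ Nat.primesBelow K, p

theorem PP_pos (K : ℕ) : 0 < PP K :=
  Finset.prod_pos fun p hp => (Nat.prime_of_mem_primesBelow hp).pos

theorem PP_factors (K : ℕ) : (PP K).primeFactors = Nat.primesBelow K :=
  Nat.primeFactors_prod fun p hp => Nat.prime_of_mem_primesBelow hp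

theorem kap_eq (K : ℕ) : kap K = (Nat.totient (PP K) : ℝ) / PP K := by
  have h := Nat.totient_eq_mul_prod_factors (PP K)
  rw [PP_factors] at h
  have h1 : ((Nat.totient (PP K) : ℚ) : ℝ) =
      (((PP K : ℕ) : ℚ) * ∏ p ∈ Nat.primesBelow K, (1 - (p : ℚ)⁻¹) : ℚ) := by rw [h]
  push_cast at h1
  have h2 : (0 : ℝ) < PP K := by exact_mod_cast PP_pos K
  rw [h1, mul_div_cancel_left₀ _ h2.ne']
  unfold kap
  apply Finset.prod_congr rfl
  intro p _
  rw [one_div]

theorem cop_iff (K m : ℕ) : (PP K).Coprime m ↔ ∀ p : ℕ, p.Prime → p ∣ m → K ≤ p := by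
  constructor
  · intro h p hp hpm
    by_contra hlt
    push Not at hlt
    have h1 : p ∣ PP K := Finset.dvd_prod_of_mem _ (Nat.mem_primesBelow.2 ⟨hlt, hp⟩)
    exact Nat.not_coprime_of_dvd_of_dvd hp.one_lt h1 hpm h
  · intro h
    apply Nat.Coprime.prod_left
    intro p hp
    rw [Nat.mem_primesBelow] at hp
    rw [hp.2.coprime_iff_not_dvd]
    intro hd
    have := h p hp.2 hd
    omega

theorem R_eq (K y : ℕ) : R K y = (Ico 1 (1 + y)).filter (PP K).Coprime := by
  ext m
  rw [mem_R, mem_filter, mem_Ico, cop_iff]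
  constructor
  · rintro ⟨h1, h2⟩
    exact ⟨by omega, h2⟩
  · rintro ⟨h1, h2⟩
    exact ⟨by omega, h2⟩

theorem blocks (a k t : ℕ) : ((Ico k (k + a * t)).filter a.Coprime).card = a.totient * t := by
  induction t with
  | zero => simp
  | succ t ih =>
    have h1 : Ico k (k + a * (t + 1)) = Ico k (k + a * t) ∪ Ico (k + a * t) (k + a * t + a) := by
      rw [Finset.Ico_union_Ico_eq_Ico (by omega) (by omega)]
      congr 1
      ring
    rw [h1, filter_union, card_union_of_disjoint, ih, Nat.filter_coprime_Ico_eq_totient]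
    · ring
    · exact disjoint_filter_filter (Finset.Ico_disjoint_Ico_consecutive _ _ _)

theorem rough_density (K : ℕ) : ∃ C : ℝ, ∀ y : ℕ,
    |((R K y).card : ℝ) - kap K * y| ≤ C := by
  refine ⟨(PP K).totient, fun y => ?_⟩
  have hP := PP_pos K
  have hP' : (0 : ℝ) < PP K := by exact_mod_cast hP
  have h1 : (PP K).totient * (y / PP K) ≤ (R K y).card := by
    rw [R_eq, ← blocks (PP K) 1 (y / PP K)]
    apply card_le_card
    apply filter_subset_filter
    apply Ico_subset_Ico_right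
    have := Nat.mul_div_le y (PP K)
    omega
  have h2 : (R K y).card ≤ (PP K).totient * (y / PP K + 1) := by
    rw [R_eq]
    exact Nat.Ico_filter_coprime_le 1 y hP.ne'
  have h3 : (y : ℝ) < PP K * ((y / PP K : ℕ) + 1) := by
    have := Nat.lt_mul_div_succ y hP
    exact_mod_cast this
  have h4 : (PP K : ℝ) * ((y / PP K : ℕ) : ℝ) ≤ y := by
    have := Nat.mul_div_le y (PP K)
    exact_mod_cast this
  have h1' : ((PP K).totient : ℝ) * ((y / PP K : ℕ) : ℝ) ≤ (R K y).card := by exact_mod_cast h1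
  have h2' : ((R K y).card : ℝ) ≤ (PP K).totient * (((y / PP K : ℕ) : ℝ) + 1) := by
    exact_mod_cast h2
  have h5 : (y : ℝ) / PP K ≤ ((y / PP K : ℕ) : ℝ) + 1 := by
    rw [div_le_iff₀ hP']
    linarith
  have h6 : ((y / PP K : ℕ) : ℝ) ≤ (y : ℝ) / PP K := by
    rw [le_div_iff₀ hP']
    linarith
  have hφ : (0 : ℝ) ≤ (PP K).totient := Nat.cast_nonneg _
  rw [kap_eq, show ((PP K).totient : ℝ) / PP K * y = (PP K).totient * (y / PP K) by ring, abs_le]
  constructor
  · nlinarith
  · nlinarith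

end Pool.Agent.N297.DD
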